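import Pool.Agent.Helper83x.ZM.SM
import Pool.Agent.TH612.GS.GF1
import Pool.Agent.TH612.GS.GF3
import Pool.Agent.TH612.GS.GF4
import Pool.Agent.TH612.GS.Inv
import Pool.Agent.TH612.GS.Asm6
import Pool.Agent.TH406.GF.REPA
import Pool.Agent.TH236.GF.OQ
import Pool.Agent.TH321.GF.AQ
import Pool.Agent.TH740.GF.VQ
import Pool.Agent.TH740.GF.GL3
import Pool.Agent.TH928.GS.MV
import Pool.Agent.TH928.GF.ZN
import Pool.Agent.TH263.GF.A2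
import Pool.Agent.TH738.GF.TMV
import Pool.Agent.TH576.GF.TL
import Pool.Agent.TH751.GF.MVB
import Pool.Agent.TH914.GF.TW
import Pool.Agent.TH778.GF.ST
import Pool.Agent.TH445.GF.DS
import Pool.Agent.TH479.GF.HD
import Pool.Agent.TH113.GF.A5
import Pool.Agent.TH757.GS.CONT
import Pool.Agent.TH811.GS.One
import Pool.Agent.TH637.GF.NA
import Pool.Agent.TH521.GF.SW3
import Pool.Agent.TH406.GS.CHI
import Pool.Agent.TH440.GF.ZA

set_option autoImplicit false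

/-! Project GF of helper612: shifted moments with a fixed half of the shifts, with the second moment supplied by
`SM.lean`. -/

namespace Pool.Agent.Helper83x.ZM

open Pool.Agent MeasureTheory

theorem sm_gs : TH612.GS.S_SM := by
  obtain ⟨C, hC, h⟩ := sm
  exact ⟨C, 2, hC, le_rfl, fun T hT => h T hT⟩

theorem gf_W : TH612.GS.S_W :=
  TH612.GS.t_W TH406.GF.t_REPA (TH236.GF.t_OQ TH321.GF.t_AQ) sm_gs (TH740.GF.t_VQ TH928.GS.t_MV)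
    TH263.GF.t_A2 (TH738.GF.t_TMV TH928.GS.t_MV) (TH576.GF.t_TL TH263.GF.t_A2 TH751.GF.t_MVB)
    (TH914.GF.t_TW TH778.GF.t_ST TH445.GF.t_DS) TH479.GF.t_HD

theorem gf_A5 : TH612.GS.S_A5 := TH113.GF.t_A5 TH757.GS.t_CONT (TH740.GF.t_GL3 TH928.GS.t_MV)

theorem gs_ONE : TH612.GS.S_ONE := TH811.GS.t_ONE TH928.GS.t_MV

open TH612.GS in
/-- every fixed `α`, diagonal term -/
theorem gf_mainD (k : ℕ) (hk : k ≤ 4) : ∃ δ : ℝ, 0 < δ ∧ ∀ α : Fin k → ℝ,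
      ∃ T₀ : ℝ, ∀ T : ℝ, T₀ ≤ T → ∀ S : ℝ, 0 ≤ S → S ≤ T →
      mP (Fin k) T (BadD α T S (T ^ (1 - δ))) ≤ ENNReal.ofReal (T ^ (k - δ : ℝ)) :=
  TH612.GS.mainD gf_W gf_A5 (TH928.GF.t_ZN gs_ONE) TH637.GF.t_NA k hk

open TH612.GS in
/-- fixed `α` with distinct coordinates, the full recipe -/
theorem gf_mainA (k : ℕ) (hk : k ≤ 4) : ∃ δ : ℝ, 0 < δ ∧ ∀ α : Fin k → ℝ, Function.Injective α →
      ∃ T₀ : ℝ, ∀ T : ℝ, T₀ ≤ T → ∀ S : ℝ, 0 ≤ S → S ≤ T →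
      mP (Fin k) T (BadA α T S (T ^ (1 - δ))) ≤ ENNReal.ofReal (T ^ (k - δ : ℝ)) :=
  TH612.GS.mainA gf_W gf_A5 (TH928.GF.t_ZN gs_ONE) (TH521.GF.t_SW3 TH406.GS.t_CHI)
    (TH440.GF.t_ZA gs_ONE) TH637.GF.t_NA TH612.GS.t_INV k hk

end Pool.Agent.Helper83x.ZM
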