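import Mathlib
import Pool.Agent.Y969.GP.Def
import Pool.Agent.H295R2.Z

set_option autoImplicit false

/-!
Mean square of zeta on the lines to the right of the critical line (statement `S_ZL` of the project GP
of helper969), from the second moment on the critical line, by the Phragmen-Lindelof principle.
-/

namespace Pool.Agent.Helper83x.ZM

open Complex Filter Topology MeasureTheory Set
open Pool.Agent.Y969.GP (ff)
open H295R2 (Zs Zs_differentiable Zs_eq Zs_norm_le)
open scoped ComplexConjugate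

namespace ZL

lemma Zs_cont : Continuous Zs := Zs_differentiable.continuous

lemma ff_cont' : Continuous ff := by
  unfold ff
  refine (Continuous.norm ?_).pow 2
  rw [continuous_iff_continuousAt]
  intro u
  have h1 : (1 / 2 + I * (u : ℂ)) ≠ 1 := by
    intro h
    have := congrArg Complex.re h
    norm_num at this
  exact (differentiableAt_riemannZeta h1).continuousAt.comp (f := fun u : ℝ => 1 / 2 + I * (u : ℂ))
    (by fun_prop)

lemma ff_neg (u : ℝ) : ff (-u) = ff u := by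
  unfold ff
  have : (1 / 2 + I * ((-u : ℝ) : ℂ)) = conj (1 / 2 + I * (u : ℂ)) := by
    apply Complex.ext <;> simp
  rw [this, riemannZeta_conj, RCLike.norm_conj]

/-- the weight -/
noncomputable def mm (v : ℝ) : ℝ := (max v 1)⁻¹ ^ 2

lemma mm_cont : Continuous mm := by
  unfold mm
  refine (Continuous.inv₀ (by fun_prop) fun v => ?_).pow 2
  have : (1:ℝ) ≤ max v 1 := le_max_right _ _
  positivity

lemma mm_nonneg (v : ℝ) : 0 ≤ mm v := by unfold mm; positivity

lemma mm_eq {v : ℝ} (hv : 1 ≤ v) : mm v = v⁻¹ ^ 2 := by unfold mm; rw [max_eq_left hv]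

/-- the function -/
noncomputable def GG (x T : ℝ) (z : ℂ) : ℂ :=
  ∫ v in (1:ℝ)..T, conj (Zs (x + I * v)) * (mm v : ℂ) * Zs (z + I * v)

/-- the mean square -/
noncomputable def JJ (T : ℝ) (z : ℂ) : ℝ := ∫ v in (1:ℝ)..T, mm v * ‖Zs (z + I * v)‖ ^ 2

lemma int_cont (x : ℝ) (z : ℂ) :
    Continuous fun v : ℝ => conj (Zs (x + I * v)) * (mm v : ℂ) * Zs (z + I * v) := by
  have h1 : Continuous fun v : ℝ => Zs (x + I * v) := Zs_cont.comp (by fun_prop)
  have h2 : Continuous fun v : ℝ => Zs (z + I * v) := Zs_cont.comp (by fun_prop)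
  have h3 : Continuous fun v : ℝ => (mm v : ℂ) := continuous_ofReal.comp mm_cont
  exact ((continuous_conj.comp h1).mul h3).mul h2

lemma jj_cont (z : ℂ) : Continuous fun v : ℝ => mm v * ‖Zs (z + I * v)‖ ^ 2 := by
  have h2 : Continuous fun v : ℝ => Zs (z + I * v) := Zs_cont.comp (by fun_prop)
  exact mm_cont.mul (h2.norm.pow 2)

lemma JJ_nonneg {T : ℝ} (hT : 1 ≤ T) (z : ℂ) : 0 ≤ JJ T z := by
  unfold JJ
  refine intervalIntegral.integral_nonneg hT fun v _ => ?_
  have := mm_nonneg v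
  positivity

lemma GG_diff (x T : ℝ) : Differentiable ℂ (GG x T) := by
  intro z₀
  have hZ' : Continuous (deriv Zs) := by
    have : ContDiff ℂ 1 Zs := Zs_differentiable.contDiff
    exact this.continuous_deriv le_rfl
  have h1 : Continuous fun v : ℝ => Zs (x + I * v) := Zs_cont.comp (by fun_prop)
  have h3 : Continuous fun v : ℝ => (mm v : ℂ) := continuous_ofReal.comp mm_cont
  have hc1 : Continuous fun v : ℝ => conj (Zs (x + I * v)) * (mm v : ℂ) :=
    (continuous_conj.comp h1).mul h3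
  have hcomp : IsCompact (Metric.closedBall z₀ 1 ×ˢ uIcc 1 T) :=
    (isCompact_closedBall z₀ 1).prod isCompact_uIcc
  have hcF : Continuous fun p : ℂ × ℝ => conj (Zs (x + I * p.2)) * (mm p.2 : ℂ) *
      deriv Zs (p.1 + I * p.2) := by
    have a1 : Continuous fun p : ℂ × ℝ => conj (Zs (x + I * p.2)) * (mm p.2 : ℂ) :=
      hc1.comp continuous_snd
    have a2 : Continuous fun p : ℂ × ℝ => deriv Zs (p.1 + I * p.2) := hZ'.comp (by fun_prop)
    exact a1.mul a2
  obtain ⟨M, hM⟩ := hcomp.exists_bound_of_continuousOn hcF.continuousOn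
  have key := intervalIntegral.hasDerivAt_integral_of_dominated_loc_of_deriv_le
    (μ := volume) (a := 1) (b := T) (x₀ := z₀) (s := Metric.closedBall z₀ 1)
    (F := fun z v => conj (Zs (x + I * v)) * (mm v : ℂ) * Zs (z + I * v))
    (F' := fun z v => conj (Zs (x + I * v)) * (mm v : ℂ) * deriv Zs (z + I * v))
    (bound := fun _ => M) (Metric.closedBall_mem_nhds z₀ one_pos)
    (Eventually.of_forall fun z => (int_cont x z).aestronglyMeasurable)
    ((int_cont x z₀).intervalIntegrable _ _)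
    ((hc1.mul (hZ'.comp (by fun_prop : Continuous fun v : ℝ => z₀ + I * (v : ℂ)))).aestronglyMeasurable)
    (Eventually.of_forall fun v hv z hz => hM (z, v) ⟨hz, uIoc_subset_uIcc hv⟩)
    (by simp)
    (Eventually.of_forall fun v _ z _ => by
      have h4 : HasDerivAt (fun z : ℂ => Zs (z + I * v)) (deriv Zs (z + I * v)) z := by
        have h5 := (Zs_differentiable (z + I * v)).hasDerivAt
        exact h5.comp_add_const z (I * v)
      exact h4.const_mul _)
  exact key.2.differentiableAt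

/-- at the centre -/
lemma GG_self (x T : ℝ) : GG x T x = ((JJ T x : ℝ) : ℂ) := by
  unfold GG JJ
  rw [← intervalIntegral.integral_ofReal]
  refine intervalIntegral.integral_congr fun v _ => ?_
  push_cast
  rw [← Complex.conj_mul']
  ring

/-- arithmetic and geometric mean -/
lemma GG_le {T : ℝ} (hT : 1 ≤ T) (x : ℝ) (z : ℂ) {l : ℝ} (hl : 0 < l) :
    ‖GG x T z‖ ≤ (l * JJ T x + l⁻¹ * JJ T z) / 2 := by
  unfold GG
  refine (intervalIntegral.norm_integral_le_integral_norm hT).trans ?_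
  have h1 : ∫ v in (1:ℝ)..T, ‖conj (Zs (x + I * v)) * (mm v : ℂ) * Zs (z + I * v)‖ ≤
      ∫ v in (1:ℝ)..T, (l / 2 * (mm v * ‖Zs ((x : ℂ) + I * v)‖ ^ 2) +
        l⁻¹ / 2 * (mm v * ‖Zs (z + I * v)‖ ^ 2)) := by
    refine intervalIntegral.integral_mono_on hT ((int_cont x z).norm.intervalIntegrable _ _)
      ((((jj_cont x).const_mul _).add ((jj_cont z).const_mul _)).intervalIntegrable _ _) fun v _ => ?_
    rw [norm_mul, norm_mul, RCLike.norm_conj, Complex.norm_real, Real.norm_eq_abs,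
      abs_of_nonneg (mm_nonneg v)]
    have h2 := mm_nonneg v
    set a := ‖Zs ((x : ℂ) + I * v)‖
    set b := ‖Zs (z + I * v)‖
    have h3 : a * b ≤ l / 2 * a ^ 2 + l⁻¹ / 2 * b ^ 2 := by
      have h4 : 0 ≤ l⁻¹ * (l * a - b) ^ 2 := by positivity
      have h5 : l⁻¹ * (l * a - b) ^ 2 = l * a ^ 2 - 2 * (a * b) + l⁻¹ * b ^ 2 := by
        field_simp
        ring
      linarith
    calc a * mm v * b = mm v * (a * b) := by ring
      _ ≤ mm v * (l / 2 * a ^ 2 + l⁻¹ / 2 * b ^ 2) := mul_le_mul_of_nonneg_left h3 h2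
      _ = _ := by ring
  refine h1.trans (le_of_eq ?_)
  rw [intervalIntegral.integral_add (((jj_cont x).const_mul _).intervalIntegrable _ _)
    (((jj_cont z).const_mul _).intervalIntegrable _ _), intervalIntegral.integral_const_mul,
    intervalIntegral.integral_const_mul]
  unfold JJ
  ring

/-- the Gaussian factor -/
lemma exp_norm {z : ℂ} (h : z.re ^ 2 ≤ 4) : ‖cexp (z ^ 2)‖ ≤ Real.exp 4 * Real.exp (-z.im ^ 2) := by
  rw [Complex.norm_exp, ← Real.exp_add]
  apply Real.exp_le_exp.2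
  simp [pow_two]
  nlinarith

lemma gauss4 (y : ℝ) : (3 + |y|) ^ 4 * Real.exp (-y ^ 2) ≤ 81 * Real.exp 1 := by
  have h1 : 3 + |y| ≤ 3 * Real.exp (|y| / 3) := by
    have := Real.add_one_le_exp (|y| / 3)
    linarith
  have h2 : (3 + |y|) ^ 4 ≤ (3 * Real.exp (|y| / 3)) ^ 4 := pow_le_pow_left₀ (by positivity) h1 4
  have h3 : (3 * Real.exp (|y| / 3)) ^ 4 = 81 * Real.exp (4 * (|y| / 3)) := by
    rw [mul_pow, ← Real.exp_nat_mul]; norm_num
  calc (3 + |y|) ^ 4 * Real.exp (-y ^ 2) ≤ 81 * Real.exp (4 * (|y| / 3)) * Real.exp (-y ^ 2) := by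
        rw [← h3]; gcongr
    _ = 81 * Real.exp (4 * (|y| / 3) + -y ^ 2) := by rw [mul_assoc, ← Real.exp_add]
    _ ≤ 81 * Real.exp 1 := by
        gcongr
        have h4 : y ^ 2 = |y| ^ 2 := (sq_abs y).symm
        rw [h4]
        nlinarith [sq_nonneg (|y| - 2 / 3)]

/-- on the line `Re = 1/2` -/
lemma JJ_half {C : ℝ} (hC : ∀ T : ℝ, 2 ≤ T → ∫ u in (0:ℝ)..(2 * T), ff u ≤ C * T * Real.log T)
    {T y : ℝ} (hT : 1 ≤ T) {z : ℂ} (hz : z = 1 / 2 + I * y) :
    JJ T z ≤ (2 + |y|) ^ 2 * (2 * (C * (T + |y| + 2) * Real.log (T + |y| + 2))) := by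
  have hy := abs_nonneg y
  have h1 : JJ T z ≤ ∫ v in (1:ℝ)..T, (2 + |y|) ^ 2 * ff (v + y) := by
    unfold JJ
    have hcf : Continuous fun v : ℝ => (2 + |y|) ^ 2 * ff (v + y) :=
      (ff_cont'.comp (by fun_prop : Continuous fun v : ℝ => v + y)).const_mul _
    refine intervalIntegral.integral_mono_on hT ((jj_cont z).intervalIntegrable _ _)
      (hcf.intervalIntegrable _ _) fun v hv => ?_
    have hv1 : 1 ≤ v := hv.1
    have hv0 : 0 < v := by linarith
    have e1 : z + I * v = 1 / 2 + I * ((v + y : ℝ) : ℂ) := by rw [hz]; push_cast; ring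
    have hne : z + I * v ≠ 1 := by
      rw [e1]
      intro h
      have := congrArg Complex.re h
      norm_num at this
    rw [mm_eq hv1, ← Zs_eq hne, norm_mul]
    have e2 : ‖z + I * v - 1‖ ≤ (2 + |y|) * v := by
      have : z + I * v - 1 = ((-1 / 2 : ℝ) : ℂ) + ((v + y : ℝ) : ℂ) * I := by
        rw [e1]; push_cast; ring
      rw [this]
      refine (norm_add_le _ _).trans ?_
      rw [norm_mul, Complex.norm_I, Complex.norm_real, Complex.norm_real, Real.norm_eq_abs,
        Real.norm_eq_abs]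
      have h5 : |v + y| ≤ v + |y| := by
        refine (abs_add_le _ _).trans ?_
        rw [abs_of_pos hv0]
      have h6 : |(-1 / 2 : ℝ)| = 1 / 2 := by norm_num [abs_of_neg]
      rw [h6]
      nlinarith
    have e3 : ‖riemannZeta (z + I * v)‖ ^ 2 = ff (v + y) := by
      unfold ff
      rw [e1]
    calc v⁻¹ ^ 2 * (‖z + I * v - 1‖ * ‖riemannZeta (z + I * v)‖) ^ 2
        = (v⁻¹ * ‖z + I * v - 1‖) ^ 2 * ‖riemannZeta (z + I * v)‖ ^ 2 := by ring
      _ ≤ (2 + |y|) ^ 2 * ‖riemannZeta (z + I * v)‖ ^ 2 := by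
          refine mul_le_mul_of_nonneg_right ?_ (by positivity)
          refine pow_le_pow_left₀ (by positivity) ?_ 2
          rw [inv_mul_le_iff₀ hv0]
          linarith
      _ = _ := by rw [e3]
  refine h1.trans ?_
  rw [intervalIntegral.integral_const_mul]
  refine mul_le_mul_of_nonneg_left ?_ (by positivity)
  rw [intervalIntegral.integral_comp_add_right]
  set R : ℝ := 2 * (T + |y| + 2) with hR
  have hnn : ∀ u, 0 ≤ ff u := fun u => by unfold ff; positivity
  have h2 : ∫ u in (1 + y)..(T + y), ff u ≤ ∫ u in (-R)..R, ff u := by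
    refine intervalIntegral.integral_mono_interval ?_ (by linarith) ?_
      (Eventually.of_forall fun u => hnn u) (ff_cont'.intervalIntegrable _ _)
    · have := neg_abs_le y
      linarith
    · have := le_abs_self y
      linarith
  have h3 : ∫ u in (-R)..R, ff u = 2 * ∫ u in (0:ℝ)..R, ff u := by
    rw [← intervalIntegral.integral_add_adjacent_intervals (ff_cont'.intervalIntegrable (-R) 0)
      (ff_cont'.intervalIntegrable 0 R)]
    have h4 : ∫ u in (-R)..0, ff u = ∫ u in (0:ℝ)..R, ff u := by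
      have h5 := intervalIntegral.integral_comp_neg (a := 0) (b := R) ff
      simp only [ff_neg, neg_zero] at h5
      exact h5.symm
    rw [h4]; ring
  have h6 := hC (T + |y| + 2) (by linarith)
  rw [← hR] at h6
  linarith

/-- zeta on the line `Re = 2` -/
lemma zeta_two {s : ℂ} (hs : s.re = 2) : ‖riemannZeta s‖ ≤ 2 := by
  have h1 : 1 < s.re := by rw [hs]; norm_num
  rw [zeta_eq_tsum_one_div_nat_add_one_cpow h1]
  have h2 : ∀ n : ℕ, ‖1 / ((n : ℂ) + 1) ^ s‖ = 1 / ((n : ℝ) + 1) ^ 2 := by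
    intro n
    rw [norm_div, norm_one]
    have : ((n : ℂ) + 1) = ((n + 1 : ℝ) : ℂ) := by push_cast; rfl
    rw [this, Complex.norm_cpow_eq_rpow_re_of_pos (by positivity), hs]
    norm_num
  have h3 : HasSum (fun n : ℕ => 1 / ((n : ℝ) + 1) ^ 2) (Real.pi ^ 2 / 6) := by
    have := (hasSum_nat_add_iff' 1).mpr hasSum_zeta_two
    simpa using this
  have h4 : ‖∑' n : ℕ, 1 / ((n : ℂ) + 1) ^ s‖ ≤ Real.pi ^ 2 / 6 := by
    refine tsum_of_norm_bounded h3 fun n => (h2 n).le
  have h5 : Real.pi ^ 2 / 6 ≤ 2 := by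
    have := Real.pi_lt_d2
    have := Real.pi_pos
    nlinarith
  exact h4.trans h5

/-- on the line `Re = 2` -/
lemma JJ_two {T y : ℝ} (hT : 1 ≤ T) {z : ℂ} (hz : z = 2 + I * y) :
    JJ T z ≤ (2 + |y|) ^ 2 * (4 * T) := by
  have hy := abs_nonneg y
  have h1 : JJ T z ≤ ∫ v in (1:ℝ)..T, (2 + |y|) ^ 2 * 4 := by
    unfold JJ
    refine intervalIntegral.integral_mono_on hT ((jj_cont z).intervalIntegrable _ _)
      (by simp) fun v hv => ?_
    have hv1 : 1 ≤ v := hv.1
    have hv0 : 0 < v := by linarith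
    have e1 : z + I * v = 2 + I * ((v + y : ℝ) : ℂ) := by rw [hz]; push_cast; ring
    have hre : (z + I * v).re = 2 := by rw [e1]; simp
    have hne : z + I * v ≠ 1 := by
      intro h
      rw [h] at hre
      norm_num at hre
    rw [mm_eq hv1, ← Zs_eq hne, norm_mul]
    have e2 : ‖z + I * v - 1‖ ≤ (2 + |y|) * v := by
      have : z + I * v - 1 = 1 + ((v + y : ℝ) : ℂ) * I := by
        rw [e1]; push_cast; ring
      rw [this]
      refine (norm_add_le _ _).trans ?_
      rw [norm_mul, Complex.norm_I, Complex.norm_real, norm_one, Real.norm_eq_abs]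
      have h5 : |v + y| ≤ v + |y| := by
        refine (abs_add_le _ _).trans ?_
        rw [abs_of_pos hv0]
      nlinarith
    have e3 : ‖riemannZeta (z + I * v)‖ ^ 2 ≤ 4 := by
      have := zeta_two hre
      have := norm_nonneg (riemannZeta (z + I * v))
      nlinarith
    calc v⁻¹ ^ 2 * (‖z + I * v - 1‖ * ‖riemannZeta (z + I * v)‖) ^ 2
        = (v⁻¹ * ‖z + I * v - 1‖) ^ 2 * ‖riemannZeta (z + I * v)‖ ^ 2 := by ring
      _ ≤ (2 + |y|) ^ 2 * 4 := by
          refine mul_le_mul ?_ e3 (by positivity) (by positivity)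
          refine pow_le_pow_left₀ (by positivity) ?_ 2
          rw [inv_mul_le_iff₀ hv0]
          linarith
  refine h1.trans ?_
  rw [intervalIntegral.integral_const, smul_eq_mul]
  nlinarith [sq_nonneg (2 + |y|)]

/-- boundedness in the strip -/
lemma GG_bdd {T : ℝ} (hT : 1 ≤ T) (x : ℝ) : ∃ M : ℝ, ∀ z : ℂ, 1 / 2 ≤ z.re → z.re ≤ 2 →
    ‖cexp (z ^ 2) * GG x T z‖ ≤ M := by
  have hc : Continuous fun v : ℝ => ‖conj (Zs (x + I * v)) * (mm v : ℂ)‖ := by
    have h1 : Continuous fun v : ℝ => Zs (x + I * v) := Zs_cont.comp (by fun_prop)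
    have h3 : Continuous fun v : ℝ => (mm v : ℂ) := continuous_ofReal.comp mm_cont
    exact ((continuous_conj.comp h1).mul h3).norm
  refine ⟨Real.exp 4 * ((∫ v in (1:ℝ)..T, ‖conj (Zs (x + I * v)) * (mm v : ℂ)‖) *
    (5 * (T + 1) ^ 2 * (81 * Real.exp 1))), fun z h1 h2 => ?_⟩
  have hI : 0 ≤ ∫ v in (1:ℝ)..T, ‖conj (Zs (x + I * v)) * (mm v : ℂ)‖ :=
    intervalIntegral.integral_nonneg hT fun v _ => norm_nonneg _
  have hG : ‖GG x T z‖ ≤ (∫ v in (1:ℝ)..T, ‖conj (Zs (x + I * v)) * (mm v : ℂ)‖) *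
      (5 * (T + 1) ^ 2 * (3 + |z.im|) ^ 2) := by
    unfold GG
    refine (intervalIntegral.norm_integral_le_integral_norm hT).trans ?_
    rw [← intervalIntegral.integral_mul_const]
    refine intervalIntegral.integral_mono_on hT ((int_cont x z).norm.intervalIntegrable _ _)
      ((hc.mul continuous_const).intervalIntegrable _ _) fun v hv => ?_
    rw [norm_mul]
    refine mul_le_mul_of_nonneg_left ?_ (norm_nonneg _)
    have hv0 : 0 ≤ v := by linarith [hv.1]
    have hre : (z + I * v).re = z.re := by simp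
    refine (Zs_norm_le (by rw [hre]; linarith)).trans ?_
    have h5 : ‖z + I * v‖ ≤ 2 + |z.im| + T := by
      have h6 : ‖z‖ ≤ |z.re| + |z.im| := Complex.norm_le_abs_re_add_abs_im z
      have h7 : ‖I * (v : ℂ)‖ = v := by
        rw [norm_mul, Complex.norm_I, one_mul, Complex.norm_real, Real.norm_eq_abs, abs_of_nonneg hv0]
      have h8 : |z.re| ≤ 2 := abs_le.2 ⟨by linarith, h2⟩
      calc ‖z + I * v‖ ≤ ‖z‖ + ‖I * (v : ℂ)‖ := norm_add_le _ _
        _ ≤ 2 + |z.im| + T := by rw [h7]; linarith [hv.2]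
    have h9 : ‖z + I * v‖ + 1 ≤ (T + 1) * (3 + |z.im|) := by nlinarith [abs_nonneg z.im]
    have h10 : (‖z + I * v‖ + 1) ^ 2 ≤ ((T + 1) * (3 + |z.im|)) ^ 2 :=
      pow_le_pow_left₀ (by positivity) h9 2
    nlinarith
  have hE := exp_norm (z := z) (by nlinarith)
  have hg := gauss4 z.im
  have h11 : (3 + |z.im|) ^ 2 * Real.exp (-z.im ^ 2) ≤ 81 * Real.exp 1 := by
    refine le_trans ?_ hg
    refine mul_le_mul_of_nonneg_right ?_ (Real.exp_pos _).le
    exact pow_le_pow_right₀ (by linarith [abs_nonneg z.im]) (by norm_num)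
  rw [norm_mul]
  calc ‖cexp (z ^ 2)‖ * ‖GG x T z‖ ≤ (Real.exp 4 * Real.exp (-z.im ^ 2)) *
        ((∫ v in (1:ℝ)..T, ‖conj (Zs (x + I * v)) * (mm v : ℂ)‖) *
          (5 * (T + 1) ^ 2 * (3 + |z.im|) ^ 2)) := by gcongr
    _ = Real.exp 4 * ((∫ v in (1:ℝ)..T, ‖conj (Zs (x + I * v)) * (mm v : ℂ)‖) *
          (5 * (T + 1) ^ 2 * ((3 + |z.im|) ^ 2 * Real.exp (-z.im ^ 2)))) := by ring
    _ ≤ _ := by gcongr

/-- the mean square between the lines -/
lemma JJ_le {T B x : ℝ} (hT : 1 ≤ T) (hx : 1 / 2 ≤ x) (hx2 : x ≤ 2)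
    (h0 : ∀ y : ℝ, Real.exp (-y ^ 2) * JJ T (1 / 2 + I * y) ≤ B)
    (h1 : ∀ y : ℝ, Real.exp (-y ^ 2) * JJ T (2 + I * y) ≤ B) : JJ T x ≤ Real.exp 8 * B := by
  obtain ⟨M, hM⟩ := GG_bdd hT x
  have hS := JJ_nonneg hT (x : ℂ)
  have hline : ∀ z : ℂ, z.re ^ 2 ≤ 4 → Real.exp (-z.im ^ 2) * JJ T z ≤ B →
      ‖cexp (z ^ 2) * GG x T z‖ ≤ (JJ T x + Real.exp 8 * B) / 2 := by
    intro z hz hB
    rw [norm_mul]
    have e1 := exp_norm hz
    have e2 := GG_le hT x z (l := Real.exp (-4)) (Real.exp_pos _)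
    have e3 : (Real.exp (-4))⁻¹ = Real.exp 4 := by rw [← Real.exp_neg]; norm_num
    rw [e3] at e2
    have e4 : Real.exp 4 * Real.exp (-4) = 1 := by rw [← Real.exp_add]; norm_num
    have e5 : Real.exp 4 * Real.exp 4 = Real.exp 8 := by rw [← Real.exp_add]; norm_num
    have e6 : Real.exp (-z.im ^ 2) ≤ 1 := by
      rw [Real.exp_le_one_iff]
      nlinarith [sq_nonneg z.im]
    have hJz := JJ_nonneg hT z
    calc ‖cexp (z ^ 2)‖ * ‖GG x T z‖ ≤ (Real.exp 4 * Real.exp (-z.im ^ 2)) *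
          ((Real.exp (-4) * JJ T x + Real.exp 4 * JJ T z) / 2) := by gcongr
      _ = ((Real.exp 4 * Real.exp (-4)) * (Real.exp (-z.im ^ 2) * JJ T x) +
          (Real.exp 4 * Real.exp 4) * (Real.exp (-z.im ^ 2) * JJ T z)) / 2 := by ring
      _ ≤ (JJ T x + Real.exp 8 * B) / 2 := by
          rw [e4, e5, one_mul]
          have e7 : Real.exp (-z.im ^ 2) * JJ T x ≤ 1 * JJ T x := by gcongr
          have e8 : Real.exp 8 * (Real.exp (-z.im ^ 2) * JJ T z) ≤ Real.exp 8 * B := by gcongr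
          linarith
  have hPL := PhragmenLindelof.vertical_strip (f := fun z => cexp (z ^ 2) * GG x T z)
    (a := 1 / 2) (b := 2) (C := (JJ T x + Real.exp 8 * B) / 2) (z := (x : ℂ))
    ((by
      have h3 : Differentiable ℂ fun z : ℂ => cexp (z ^ 2) := by fun_prop
      exact (h3.mul (GG_diff x T)).diffContOnCl))
    ⟨0, by
      refine div_pos Real.pi_pos ?_
      norm_num, 0, by
      refine Asymptotics.IsBigO.of_bound M ?_
      refine Filter.eventually_inf_principal.2 (Eventually.of_forall fun z hz => ?_)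
      have := hM z (le_of_lt hz.1) (le_of_lt hz.2)
      simpa using this⟩
    (fun z hz => by
      refine hline z (by rw [hz]; norm_num) ?_
      have e : z = 1 / 2 + I * (z.im : ℂ) := by
        apply Complex.ext <;> simp [hz]
      have := h0 z.im
      rwa [← e] at this)
    (fun z hz => by
      refine hline z (by rw [hz]; norm_num) ?_
      have e : z = 2 + I * (z.im : ℂ) := by
        apply Complex.ext <;> simp [hz]
      have := h1 z.im
      rwa [← e] at this)
    (by simpa using hx) (by simpa using hx2)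
  simp only [norm_mul, GG_self, Complex.norm_real, Real.norm_eq_abs, abs_of_nonneg hS] at hPL
  have h5 : 1 ≤ ‖cexp ((x:ℂ) ^ 2)‖ := by
    rw [← Complex.ofReal_pow, ← Complex.ofReal_exp, Complex.norm_real, Real.norm_eq_abs,
      abs_of_pos (Real.exp_pos _)]
    exact Real.one_le_exp (sq_nonneg x)
  nlinarith

end ZL

open ZL in
/-- mean square of zeta on the lines to the right of the critical line -/
theorem zl_of (h : Pool.Agent.Y969.GP.S_SM) : Pool.Agent.Y969.GP.S_ZL := by
  obtain ⟨C, hC, hSM⟩ := h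
  intro κ₀ hκ₀
  set κ : ℝ := min κ₀ 1 with hκdef
  have hκ : 0 < κ := lt_min hκ₀ one_pos
  have hκ1 : κ ≤ 1 := min_le_right _ _
  have hκ0 : κ ≤ κ₀ := min_le_left _ _
  set B₀ : ℝ := (2 * C / κ + 4) * (81 * Real.exp 1) with hB₀
  have hB₀0 : 0 < B₀ := by positivity
  refine ⟨Real.exp 8 * B₀, by positivity, fun x T hx hx2 hT => ?_⟩
  have hT0 : 0 < T := by linarith
  have hTκ : 1 ≤ T ^ (1 + κ) := Real.one_le_rpow hT (by linarith)
  have hTT : T ≤ T ^ (1 + κ) := by
    calc T = T ^ (1:ℝ) := (Real.rpow_one T).symm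
      _ ≤ T ^ (1 + κ) := Real.rpow_le_rpow_of_exponent_le hT (by linarith)
  -- the two lines
  have hmain : ∀ (y J : ℝ), J ≤ (2 * C / κ + 4) * T ^ (1 + κ) * (3 + |y|) ^ 4 →
      Real.exp (-y ^ 2) * J ≤ B₀ * T ^ (1 + κ) := by
    intro y J hJ
    calc Real.exp (-y ^ 2) * J ≤ Real.exp (-y ^ 2) * ((2 * C / κ + 4) * T ^ (1 + κ) * (3 + |y|) ^ 4) :=
          mul_le_mul_of_nonneg_left hJ (Real.exp_pos _).le
      _ = (2 * C / κ + 4) * T ^ (1 + κ) * ((3 + |y|) ^ 4 * Real.exp (-y ^ 2)) := by ring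
      _ ≤ (2 * C / κ + 4) * T ^ (1 + κ) * (81 * Real.exp 1) := by
          refine mul_le_mul_of_nonneg_left (gauss4 y) (by positivity)
      _ = B₀ * T ^ (1 + κ) := by rw [hB₀]; ring
  have hJ := JJ_le (B := B₀ * T ^ (1 + κ)) hT hx hx2
    (fun y => hmain y _ (by
      have hy := abs_nonneg y
      refine (JJ_half hSM hT rfl).trans ?_
      have h1 : T + |y| + 2 ≤ T * (3 + |y|) := by nlinarith
      have h2 : 1 ≤ T + |y| + 2 := by linarith
      have h3 : Real.log (T + |y| + 2) ≤ (T + |y| + 2) ^ κ / κ := Real.log_le_rpow_div (by linarith) hκ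
      have h4 : (T + |y| + 2) * Real.log (T + |y| + 2) ≤ (T + |y| + 2) ^ (1 + κ) / κ := by
        rw [Real.rpow_add (by linarith), Real.rpow_one, mul_div_assoc]
        exact mul_le_mul_of_nonneg_left h3 (by linarith)
      have h5 : (T + |y| + 2) ^ (1 + κ) ≤ T ^ (1 + κ) * (3 + |y|) ^ 2 := by
        calc (T + |y| + 2) ^ (1 + κ) ≤ (T * (3 + |y|)) ^ (1 + κ) :=
              Real.rpow_le_rpow (by linarith) h1 (by linarith)
          _ = T ^ (1 + κ) * (3 + |y|) ^ (1 + κ) := Real.mul_rpow hT0.le (by linarith)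
          _ ≤ T ^ (1 + κ) * (3 + |y|) ^ 2 := by
              refine mul_le_mul_of_nonneg_left ?_ (by positivity)
              rw [← Real.rpow_natCast (3 + |y|) 2]
              refine Real.rpow_le_rpow_of_exponent_le (by linarith) ?_
              push_cast
              linarith
      have h6 : (2 + |y|) ^ 2 ≤ (3 + |y|) ^ 2 := pow_le_pow_left₀ (by linarith) (by linarith) 2
      calc (2 + |y|) ^ 2 * (2 * (C * (T + |y| + 2) * Real.log (T + |y| + 2)))
          = (2 + |y|) ^ 2 * (2 * C * ((T + |y| + 2) * Real.log (T + |y| + 2))) := by ring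
        _ ≤ (3 + |y|) ^ 2 * (2 * C * (T ^ (1 + κ) * (3 + |y|) ^ 2 / κ)) := by
            refine mul_le_mul h6 ?_ ?_ (by positivity)
            · refine mul_le_mul_of_nonneg_left (h4.trans ?_) (by positivity)
              gcongr
            · have := Real.log_nonneg h2
              positivity
        _ = (2 * C / κ) * T ^ (1 + κ) * (3 + |y|) ^ 4 := by ring
        _ ≤ (2 * C / κ + 4) * T ^ (1 + κ) * (3 + |y|) ^ 4 := by gcongr; linarith))
    (fun y => hmain y _ (by
      have hy := abs_nonneg y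
      refine (JJ_two hT rfl).trans ?_
      have h6 : (2 + |y|) ^ 2 ≤ (3 + |y|) ^ 4 := by
        calc (2 + |y|) ^ 2 ≤ (3 + |y|) ^ 2 := pow_le_pow_left₀ (by linarith) (by linarith) 2
          _ ≤ (3 + |y|) ^ 4 := pow_le_pow_right₀ (by linarith) (by norm_num)
      have h7 : 0 ≤ 2 * C / κ := by positivity
      calc (2 + |y|) ^ 2 * (4 * T) ≤ (3 + |y|) ^ 4 * (4 * T ^ (1 + κ)) := by gcongr
        _ = 4 * T ^ (1 + κ) * (3 + |y|) ^ 4 := by ring
        _ ≤ (2 * C / κ + 4) * T ^ (1 + κ) * (3 + |y|) ^ 4 := by gcongr; linarith))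
  -- from `JJ` to zeta
  have hfin : ∫ v in (1 : ℝ)..T, ‖riemannZeta (x + I * v)‖ ^ 2 ≤ JJ T x := by
    unfold JJ
    rw [intervalIntegral.integral_of_le hT, intervalIntegral.integral_of_le hT]
    refine setIntegral_mono_on ?_ ?_ measurableSet_Ioc fun v hv => ?_
    · have hcont : ContinuousOn (fun v : ℝ => ‖riemannZeta (x + I * v)‖ ^ 2) (Icc 1 T) := by
        intro v hv
        have hne : ((x : ℂ) + I * v) ≠ 1 := by
          intro h
          have := congrArg Complex.im h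
          simp at this
          linarith [hv.1]
        have := (differentiableAt_riemannZeta hne).continuousAt
        exact (((this.comp (f := fun v : ℝ => (x : ℂ) + I * v) (by fun_prop)).norm).pow 2).continuousWithinAt
      exact (hcont.integrableOn_compact isCompact_Icc).mono_set Ioc_subset_Icc_self
    · exact ((jj_cont x).continuousOn.integrableOn_compact isCompact_Icc).mono_set Ioc_subset_Icc_self
    · have hv1 : 1 < v := hv.1
      have hv0 : 0 < v := by linarith
      have hne : ((x : ℂ) + I * v) ≠ 1 := by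
        intro h
        have := congrArg Complex.im h
        simp at this
        linarith
      rw [mm_eq hv1.le, ← Zs_eq hne, norm_mul]
      have e2 : v ≤ ‖(x : ℂ) + I * v - 1‖ := by
        have := Complex.abs_im_le_norm ((x : ℂ) + I * v - 1)
        simp at this
        rwa [abs_of_pos hv0] at this
      have e3 : 1 ≤ v⁻¹ * ‖(x : ℂ) + I * v - 1‖ := by
        rw [le_inv_mul_iff₀ hv0]; linarith
      have e4 : 1 ≤ (v⁻¹ * ‖(x : ℂ) + I * v - 1‖) ^ 2 := one_le_pow₀ e3
      calc ‖riemannZeta (x + I * v)‖ ^ 2 = 1 * ‖riemannZeta (x + I * v)‖ ^ 2 := (one_mul _).symm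
        _ ≤ (v⁻¹ * ‖(x : ℂ) + I * v - 1‖) ^ 2 * ‖riemannZeta (x + I * v)‖ ^ 2 := by gcongr
        _ = _ := by ring
  calc ∫ v in (1 : ℝ)..T, ‖riemannZeta (x + I * v)‖ ^ 2 ≤ JJ T x := hfin
    _ ≤ Real.exp 8 * (B₀ * T ^ (1 + κ)) := hJ
    _ ≤ Real.exp 8 * B₀ * T ^ (1 + κ₀) := by
        rw [← mul_assoc]
        refine mul_le_mul_of_nonneg_left ?_ (by positivity)
        exact Real.rpow_le_rpow_of_exponent_le hT (by linarith)

end Pool.Agent.Helper83x.ZM
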