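import Pool.Agent.Helper83x.ZM.SM
import Pool.Agent.Helper83x.ZM.ZL
import Pool.Agent.Y125.GP.LSW
import Pool.Agent.Y125.GP.VAR
import Pool.Agent.Y155.GP.D1
import Pool.Agent.Y180.GP.Mel
import Pool.Agent.Y185.GP.HOL
import Pool.Agent.Y22.GP.Tel
import Pool.Agent.Y232.GP.E1
import Pool.Agent.Y258.GP.MB
import Pool.Agent.Y319.GP.FB
import Pool.Agent.Y321.GP.FD
import Pool.Agent.Y379.GP.Off
import Pool.Agent.Y379.GP.Sp
import Pool.Agent.Y434.GP.RPL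
import Pool.Agent.Y545.GP.CR
import Pool.Agent.Y587.GP.Chi
import Pool.Agent.Y587.GP.V
import Pool.Agent.Y79.GP.ZP
import Pool.Agent.Y86.GP.CT
import Pool.Agent.Y891.GP.AFE
import Pool.Agent.Y961.GP.NS
import Pool.Agent.Y969.GP.BR5
import Pool.Agent.Y969.GP.Fin2
import Pool.Agent.Y969.GP.Fin3

set_option autoImplicit false

/-! Project GP of helper969: the main theorem, with the second moment and the mean squares to the
right of the critical line supplied by `SM.lean` and `ZL.lean`. -/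

namespace Pool.Agent.Helper83x.ZM

open Pool.Agent

theorem zl : Y969.GP.S_ZL := zl_of sm

theorem gp_main : Y969.GP.S_MAIN := by
  have hV := Y587.GP.t_V
  have hSP := Y379.GP.t_SP
  have hCR := Y545.GP.t_CR hV
  have hVAR := Y125.GP.t_VAR hSP (Y125.GP.t_LSW hSP) Y379.GP.t_OFF hCR
  have hAFE := Y891.GP.t_AFE hV Y587.GP.Chi.t_CHI
  have hRPL := Y434.GP.t_RPL hAFE sm
  have hFD := Y321.GP.t_FD
  have hFHD := Y319.GP.t_FHD hFD
  have hFHC := Y319.GP.t_FHC hFD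
  have hHOL := Y185.GP.t_HOL hFHD hFHC
  have hHOL2 := Y185.GP.t_HOL2 hFHD hFHC
  have hMB := Y258.GPMB.t_MB (Y319.GP.t_FB hFD) zl Y79.GP.t_ZP
  have hTEL := Y22.GP.t_TEL Y155.GP.t_D1
  have hTEL2 := Y22.GP.t_TEL2 Y155.GP.t_D2
  exact Y969.GP.t_MAIN hVAR hRPL (Y969.GP.t_BRW hTEL hTEL2 hHOL hHOL2 hMB (Y180.GP.t_MEL hV))
    (Y969.GP.t_RRW hTEL2 hHOL hHOL2 hMB) Y961.GP.t_NS (Y232.GP.t_E1 sm) (Y86.GP.t_CT hV)

end Pool.Agent.Helper83x.ZM
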