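import Pool.Agent.Helper83x.ZM.GF
import Pool.Agent.TH521.GS.Rep
import Pool.Agent.TH889.GS.OP
import Pool.Agent.TH503.GS.MVD
import Pool.Agent.TH264.GS.AP
import Pool.Agent.TH805.GS.SW
import Pool.Agent.TH509.GS.DIAG
import Pool.Agent.TH367.GS.SS
import Pool.Agent.TH448.GS.FL2
import Pool.Agent.TH347.GS.A4
import Pool.Agent.TH753.GS.GL2
import Pool.Agent.TH228.GS.ZM
import Pool.Agent.TH767.GS.NS

set_option autoImplicit false

/-! Project GS of helper612: shifted moments for almost all shift vectors, with the second moment supplied by `SM.lean`. -/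

namespace Pool.Agent.Helper83x.ZM

open Pool.Agent MeasureTheory

open TH612.GS in
theorem gs_main (k : ℕ) : ∃ δ : ℝ, 0 < δ ∧ ∃ T₀ : ℝ, ∀ T : ℝ, T₀ ≤ T →
      mP (Fin k ⊕ Fin k) T (Bad k T (T ^ (1 - δ))) ≤ ENNReal.ofReal (T ^ (2 * k - δ : ℝ)) :=
  TH612.GS.main
    (TH612.GS.t_Z1 TH521.GS.t_REP (TH889.GS.t_OP TH928.GS.t_MV (TH503.GS.t_MVD TH928.GS.t_MV) TH264.GS.t_AP) sm_gs
      (TH503.GS.t_SP TH928.GS.t_MV))
    (TH612.GS.t_Z2 TH521.GS.t_REP2 sm_gs) (TH367.GS.t_SS TH448.GS.t_FL2)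
    (TH347.GS.t_A4 TH757.GS.t_CONT (TH753.GS.t_GL2 TH448.GS.t_FL2)) (TH228.GS.t_ZM gs_ONE)
    (TH805.GS.t_SW TH406.GS.t_CHI) gs_ONE TH767.GS.t_NS TH509.GS.t_DIAG TH612.GS.t_INV k

end Pool.Agent.Helper83x.ZM
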