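import Pool.Agent.Helper83x.ZM.SM
import Pool.Agent.N879.PZ.Sml
import Pool.Agent.N879.PZ.Ctg
import Pool.Agent.N879.PZ.Win

set_option autoImplicit false

/-! The part LED (leading term of the model) of project PZ of helper879. -/

namespace Pool.Agent.Helper83x.ZM

open Complex Filter Topology MeasureTheory Set
open Pool.Agent.Y969.GP (ff ht mB FR)
open Pool.Agent.Y969.SM (ff_cont mB_int)
open Pool.Agent.N879.PZ
open Pool.Agent.N879.PZ.Smlaux

noncomputable section

/-- the factors in the telescoping sum -/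
def hx (F G : ℝ → ℂ) {n : ℕ} (i j : Fin n) : ℝ → ℂ :=
  if j < i then F else if j = i then (fun x => F x - G x) else G

lemma hx_tel (F G : ℝ → ℂ) : ∀ (n : ℕ) (x : Fin n → ℝ),
    ∏ j, F (x j) - ∏ j, G (x j) = ∑ i, ∏ j, hx F G i j (x j) := by
  intro n
  induction n with
  | zero => intro x; simp
  | succ n ih =>
    intro x
    rw [Fin.sum_univ_succ]
    have e0 : ∏ j, hx F G (0 : Fin (n + 1)) j (x j) = (F (x 0) - G (x 0)) * ∏ j : Fin n, G (x j.succ) := by
      rw [Fin.prod_univ_succ]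
      congr 1
    have e1 : ∀ i : Fin n, ∏ j, hx F G i.succ j (x j) = F (x 0) * ∏ j : Fin n, hx F G i j (x j.succ) := by
      intro i
      rw [Fin.prod_univ_succ]
      congr 1
      refine Finset.prod_congr rfl fun j _ => ?_
      simp only [hx, Fin.succ_lt_succ_iff, Fin.succ_inj]
    rw [e0, Finset.sum_congr rfl fun i _ => e1 i, ← Finset.mul_sum, ← ih fun j => x j.succ,
      Fin.prod_univ_succ, Fin.prod_univ_succ]
    ring

lemma hx_cont {F G : ℝ → ℂ} (hF : Continuous F) (hG : Continuous G) {n : ℕ} (i j : Fin n) :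
    Continuous (hx F G i j) := by
  unfold hx
  split_ifs
  · exact hF
  · exact hF.sub hG
  · exact hG

lemma P1_cont' (N : ℕ) : Continuous (P1 N) := by
  unfold P1 ee
  refine continuous_finsetSum _ fun p _ => ?_
  fun_prop

lemma prod_upd {n : ℕ} (i : Fin n) (e L : ℝ) :
    ∏ j, (if j = i then e else L) = e * L ^ (n - 1) := by
  have h1 : (fun j : Fin n => if j = i then e else L) = Function.update (fun _ => L) i e := by
    funext j
    rw [Function.update_apply]
  rw [h1, Finset.prod_update_of_mem (Finset.mem_univ i), Finset.prod_const]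
  congr 2
  rw [Finset.card_sdiff_of_subset (Finset.subset_univ _)]
  simp

theorem t_LED (hFUB : S_FUB) (hCTG : S_CTG) (hWIN : S_WIN) (hSM : Pool.Agent.Y969.GP.S_SM) : S_LED := by
  obtain ⟨C1, hC1, hWIN⟩ := hWIN
  obtain ⟨C2, hC2, hSM⟩ := hSM
  intro n
  refine ⟨(n + 1) * (C2 * (√C1) ^ n), by positivity, ?_⟩
  intro T U a N hP
  have hWN := hWIN T U a N hP
  obtain ⟨hT, hU, hUT, ha, haT, hN1, hNT, -⟩ := hP
  have ha1 := one_le_a hT ha
  have hL := log_one hT
  have hU0 : 0 < U := by linarith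
  have hT0 : 0 < T := by linarith
  have ha0 : 0 < a := by linarith
  set L := Real.log T with hLdef
  have hL0 : 0 < L := by linarith
  set ℓ := 1 + Real.log N with hℓ
  have hNL0 : 0 ≤ Real.log N := Real.log_natCast_nonneg N
  have hℓ1 : 1 ≤ ℓ := by rw [hℓ]; linarith
  set e := 1 + Real.log (T / a) with he
  have he0 : 0 ≤ Real.log (T / a) := Real.log_nonneg (by rw [le_div_iff₀ ha0]; linarith)
  have he1 : 1 ≤ e := by rw [he]; linarith
  set F := DN N with hF
  set G : ℝ → ℂ := fun u => (L : ℂ) * P1 N u with hG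
  have hFc : Continuous F := DN_cont N
  have hPc : Continuous (P1 N) := P1_cont' N
  have hGc : Continuous G := continuous_const.mul hPc
  -- the windows
  have win1 : ∀ t ∈ Icc a T, ∀ i j : Fin n,
      ∫ c in (0:ℝ)..U, ‖hx F G i j (t + c)‖ ≤ U * (√C1 * ℓ ^ 2 * if j = i then e else L) := by
    intro t ht i j
    obtain ⟨w1, w2, w3⟩ := hWN t ht.1 ht.2
    have hs := Real.sq_sqrt hC1.le
    refine cs_int hU0.le (f := fun c => ‖hx F G i j (t + c)‖)
      ((hx_cont hFc hGc i j).comp (by fun_prop)).norm (by split_ifs <;> positivity) ?_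
    by_cases hji : j < i
    · have hne : ¬ j = i := hji.ne
      simp only [hx, hji, if_true, hne, if_false]
      refine w2.trans (le_of_eq ?_)
      calc C1 * U * ℓ ^ 4 * L ^ 2 = (√C1) ^ 2 * U * ℓ ^ 4 * L ^ 2 := by rw [hs]
        _ = U * (√C1 * ℓ ^ 2 * L) ^ 2 := by ring
    · by_cases hje : j = i
      · subst hje
        simp only [hx, lt_irrefl, if_false, if_true]
        refine w3.trans (le_of_eq ?_)
        calc C1 * U * ℓ ^ 4 * e ^ 2 = (√C1) ^ 2 * U * ℓ ^ 4 * e ^ 2 := by rw [hs]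
          _ = U * (√C1 * ℓ ^ 2 * e) ^ 2 := by ring
      · simp only [hx, hji, if_false, hje]
        have e1 : ∫ c in (0:ℝ)..U, ‖G (t + c)‖ ^ 2 = L ^ 2 * ∫ c in (0:ℝ)..U, ‖P1 N (t + c)‖ ^ 2 := by
          rw [← intervalIntegral.integral_const_mul]
          refine intervalIntegral.integral_congr fun c _ => ?_
          simp only [hG, norm_mul, Complex.norm_real, Real.norm_eq_abs, mul_pow, sq_abs]
        rw [e1]
        calc L ^ 2 * ∫ c in (0:ℝ)..U, ‖P1 N (t + c)‖ ^ 2 ≤ L ^ 2 * (C1 * U * ℓ ^ 2) := by gcongr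
          _ ≤ L ^ 2 * (C1 * U * ℓ ^ 4) := by
              have : ℓ ^ 2 ≤ ℓ ^ 4 := pow_le_pow_right₀ hℓ1 (by norm_num)
              gcongr
          _ = L ^ 2 * ((√C1) ^ 2 * U * ℓ ^ 4) := by rw [hs]
          _ = U * (√C1 * ℓ ^ 2 * L) ^ 2 := by ring
  -- the integral of `ff`
  have hff : ∫ t in Icc a T, ff t ≤ C2 * T * L := by
    refine le_trans ?_ (hSM T (by linarith))
    rw [intervalIntegral.integral_of_le (by linarith), ← integral_Icc_eq_integral_Ioc]
    refine setIntegral_mono_set (ff_cont.integrableOn_Icc) ?_ ?_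
    · exact Eventually.of_forall fun t => Pool.Agent.N879.PZ.Smlaux.ff_nonneg t
    · exact Eventually.of_forall fun t ht => ⟨by linarith [ht.1], by linarith [ht.2]⟩
  have hff0 : 0 ≤ ∫ t in Icc a T, ff t := integral_nonneg fun t => Pool.Agent.N879.PZ.Smlaux.ff_nonneg t
  -- one term
  have term : ∀ i : Fin n, ∫ c, ‖∫ t in Icc a T, (ff t : ℂ) * ∏ j, hx F G i j (t + c j)‖ ∂(mB n 0 U) ≤
      C2 * (√C1) ^ n * ℓ ^ (2 * n) * e * L ^ n * T * U ^ n := by
    intro i
    refine (hFUB n a T U (Icc a T) (fun t => (ff t : ℂ)) (fun j => hx F G i j) haT hU0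
      measurableSet_Icc subset_rfl (ff_Wb a T) (fun j => hx_cont hFc hGc i j)).trans ?_
    have hB : ∀ t ∈ Icc a T, ‖(ff t : ℂ)‖ * ∏ j, ∫ c in (0:ℝ)..U, ‖hx F G i j (t + c)‖ ≤
        ff t * (U ^ n * ((√C1) ^ n * ℓ ^ (2 * n)) * (e * L ^ (n - 1))) := by
      intro t ht
      rw [nff]
      refine mul_le_mul_of_nonneg_left ?_ (Pool.Agent.N879.PZ.Smlaux.ff_nonneg t)
      calc ∏ j, ∫ c in (0:ℝ)..U, ‖hx F G i j (t + c)‖
          ≤ ∏ j, (U * (√C1 * ℓ ^ 2 * if j = i then e else L)) :=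
            Finset.prod_le_prod (fun j _ => intervalIntegral.integral_nonneg hU0.le fun c _ => norm_nonneg _)
              fun j _ => win1 t ht i j
        _ = U ^ n * ((√C1) ^ n * ℓ ^ (2 * n)) * (e * L ^ (n - 1)) := by
            rw [← prod_upd i e L, Finset.prod_mul_distrib, Finset.prod_mul_distrib, Finset.prod_const,
              Finset.prod_const, Finset.card_univ, Fintype.card_fin, mul_pow, ← pow_mul]
            ring
    have hc1 : Continuous fun t : ℝ => ‖(ff t : ℂ)‖ * ∏ j, ∫ c in (0:ℝ)..U, ‖hx F G i j (t + c)‖ := by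
      refine Continuous.mul (Complex.continuous_ofReal.comp ff_cont).norm ?_
      exact continuous_finsetProd _ fun j _ => wcont (hx_cont hFc hGc i j) U
    have hc2 : Continuous fun t : ℝ => ff t * (U ^ n * ((√C1) ^ n * ℓ ^ (2 * n)) * (e * L ^ (n - 1))) :=
      ff_cont.mul continuous_const
    refine (setIntegral_mono_on (hc1.integrableOn_Icc) (hc2.integrableOn_Icc) measurableSet_Icc hB).trans ?_
    rw [integral_mul_const]
    have hn : 1 ≤ n := by
      have := i.2
      omega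
    calc (∫ t in Icc a T, ff t) * (U ^ n * ((√C1) ^ n * ℓ ^ (2 * n)) * (e * L ^ (n - 1)))
        ≤ (C2 * T * L) * (U ^ n * ((√C1) ^ n * ℓ ^ (2 * n)) * (e * L ^ (n - 1))) := by gcongr
      _ = C2 * (√C1) ^ n * ℓ ^ (2 * n) * e * (L * L ^ (n - 1)) * T * U ^ n := by ring
      _ = C2 * (√C1) ^ n * ℓ ^ (2 * n) * e * L ^ n * T * U ^ n := by
          rw [← pow_succ', Nat.sub_add_cancel hn]
  -- the sum
  have hsplit : ∀ c : Fin n → ℝ, ∫ t in Icc a T, (ff t : ℂ) * (∏ j : Fin n, DN N (t + c j) -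
      ∏ j : Fin n, ((Real.log T : ℂ) * P1 N (t + c j))) =
      ∑ i, ∫ t in Icc a T, (ff t : ℂ) * ∏ j, hx F G i j (t + c j) := by
    intro c
    rw [← integral_finsetSum]
    · refine integral_congr_ae (Eventually.of_forall fun t => ?_)
      have := hx_tel F G n (fun j => t + c j)
      simp only [hF, hG, hLdef] at this ⊢
      rw [this, Finset.mul_sum]
    · intro i _
      have : Continuous fun t : ℝ => (ff t : ℂ) * ∏ j, hx F G i j (t + c j) := by
        refine (Complex.continuous_ofReal.comp ff_cont).mul ?_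
        exact continuous_finsetProd _ fun j _ => (hx_cont hFc hGc i j).comp (by fun_prop)
      exact this.integrableOn_Icc
  have hcc : ∀ i : Fin n, Continuous fun c : Fin n → ℝ =>
      ∫ t in Icc a T, (ff t : ℂ) * ∏ j, hx F G i j (t + c j) := fun i =>
    hCTG n a T (Icc a T) (fun t => (ff t : ℂ)) (fun j => hx F G i j) haT measurableSet_Icc subset_rfl
      (ff_Wb a T) (fun j => hx_cont hFc hGc i j)
  calc ∫ c, ‖∫ t in Icc a T, (ff t : ℂ) * (∏ j : Fin n, DN N (t + c j) -
        ∏ j : Fin n, ((Real.log T : ℂ) * P1 N (t + c j)))‖ ∂(mB n 0 U)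
      ≤ ∫ c, ∑ i, ‖∫ t in Icc a T, (ff t : ℂ) * ∏ j, hx F G i j (t + c j)‖ ∂(mB n 0 U) := by
        refine integral_mono ?_ ?_ fun c => ?_
        · have h1 : Continuous fun c : Fin n → ℝ => ‖∫ t in Icc a T, (ff t : ℂ) * (∏ j : Fin n, DN N (t + c j) -
              ∏ j : Fin n, ((Real.log T : ℂ) * P1 N (t + c j)))‖ := by
            simp only [hsplit]
            exact (continuous_finsetSum _ fun i _ => hcc i).norm
          exact mB_int h1 0 U
        · exact mB_int (continuous_finsetSum _ fun i _ => (hcc i).norm) 0 U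
        · simp only [hsplit]
          exact norm_sum_le _ _
    _ = ∑ i, ∫ c, ‖∫ t in Icc a T, (ff t : ℂ) * ∏ j, hx F G i j (t + c j)‖ ∂(mB n 0 U) :=
        integral_finsetSum _ fun i _ => mB_int (hcc i).norm 0 U
    _ ≤ ∑ _i : Fin n, C2 * (√C1) ^ n * ℓ ^ (2 * n) * e * L ^ n * T * U ^ n :=
        Finset.sum_le_sum fun i _ => term i
    _ = n * (C2 * (√C1) ^ n * ℓ ^ (2 * n) * e * L ^ n * T * U ^ n) := by
        rw [Finset.sum_const, Finset.card_univ, Fintype.card_fin, nsmul_eq_mul]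
    _ ≤ (n + 1) * (C2 * (√C1) ^ n * ℓ ^ (2 * n) * e * L ^ n * T * U ^ n) := by
        have : 0 ≤ C2 * (√C1) ^ n * ℓ ^ (2 * n) * e * L ^ n * T * U ^ n := by positivity
        nlinarith
    _ = (n + 1) * (C2 * (√C1) ^ n) * ℓ ^ (2 * n) * e * L ^ n * T * U ^ n := by ring

end

end Pool.Agent.Helper83x.ZM
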