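import Pool.Agent.Helper83x.ZM.GS
import Pool.Agent.N879.PU.Asm3
import Pool.Agent.N879.PU.Em
import Pool.Agent.N879.PU.Iru
import Pool.Agent.N879.PU.Ku
import Pool.Agent.N879.PU.Mv
import Pool.Agent.N879.PU.Reg
import Pool.Agent.N879.PU.Sms
import Pool.Agent.N879.PU.Telu
import Pool.Agent.N879.PU.Winu

set_option autoImplicit false

/-! Project PU of helper879: shifted moments over short intervals. -/

namespace Pool.Agent.Helper83x.ZM

open Pool.Agent.N879.PU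
open Pool.Agent

theorem pu_main : S_MAINU2 :=
  t_MAINU2 (t_KU t_EM t_MVS (t_MVT t_MVS)) (t_REG t_SMS) (t_WINU t_MVS) t_TELU t_IRU
    TH509.GS.t_DIAG (TH367.GS.t_SS TH448.GS.t_FL2)
    (TH347.GS.t_A4 TH757.GS.t_CONT (TH753.GS.t_GL2 TH448.GS.t_FL2)) (TH228.GS.t_ZM gs_ONE) TH767.GS.t_NS

end Pool.Agent.Helper83x.ZM
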