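import Pool.Agent.Helper83x.ZM.LED
import Pool.Agent.N879.PZ.Aa1
import Pool.Agent.N879.PZ.Asm4
import Pool.Agent.N879.PZ.Eul1
import Pool.Agent.N879.PZ.Eut1
import Pool.Agent.N879.PZ.Gcm
import Pool.Agent.N879.PZ.Ker
import Pool.Agent.N879.PZ.Kh
import Pool.Agent.N879.PZ.Kl
import Pool.Agent.N879.PZ.Lb1
import Pool.Agent.N879.PZ.Lc
import Pool.Agent.N879.PZ.Loc1
import Pool.Agent.N879.PZ.Msq
import Pool.Agent.N879.PZ.Telc
import Pool.Agent.N879.PZ.Ze1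

set_option autoImplicit false

/-! Project PZ of helper879: moments of zeta with shifts of the size of a power of `log T`, with the part LED supplied by
`LED.lean`. -/

namespace Pool.Agent.Helper83x.ZM

open Pool.Agent.N879.PZ

theorem pz_WIN : S_WIN := t_WIN t_LC

theorem pz_LED : S_LED := t_LED t_FUB t_CTG pz_WIN sm

theorem pz_MEAN2 : S_MEAN2 :=
  t_MEAN2 (t_KER t_AFX (t_KH t_CRD t_LC t_LT) t_KL) t_TELC t_CTG t_M4L' pz_WIN (t_GCM t_M4L')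
    (t_SML t_FUB t_M4L') (t_GCD t_FUB t_M4L' pz_WIN (t_GCM t_M4L')) pz_LED (t_MSQ t_TW')

theorem pz_AA1 : S_AA1 := t_AA1 t_LOC1

theorem pz_main : S_MAIN2 :=
  t_MAIN2 t_CTG pz_MEAN2 (t_EUL1 t_LOC1 (t_EUT1 t_LSM1)) (t_LB1 t_LOC1) (t_ZE1 pz_AA1)

end Pool.Agent.Helper83x.ZM
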