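import Pool.Agent.N879.PZ.Tw
import Pool.Agent.N879.PZ.M4l
import Pool.Agent.N879.PZ.Afx
import Pool.Agent.N879.PZ.Crd
import Pool.Agent.N879.PZ.Lt

set_option autoImplicit false

/-!
The second moment of zeta is at most `C T log T` (statement `S_SM` of the projects GP and SX of
helper969), from the twisted second moment `S_TW` and the fourth moment bound `S_M4L` of project PZ.
-/

namespace Pool.Agent.Helper83x.ZM

open Complex Filter Topology MeasureTheory Set
open Pool.Agent.Y969.GP (ff ht lam)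
open Pool.Agent.N879.PZ (ee S_TW S_M4L)

/-- powers of the logarithm -/
lemma log_pow_le (A : ℕ) {e : ℝ} (he : 0 < e) : ∃ K : ℝ, 0 < K ∧ ∀ x : ℝ, 1 ≤ x →
    Real.log x ^ A ≤ K * x ^ e := by
  have h0 : 0 < e / (A + 1) := by positivity
  refine ⟨(1 / (e / (A + 1))) ^ A, by positivity, fun x hx => ?_⟩
  have hx0 : 0 ≤ x := by linarith
  have h1 : Real.log x ≤ x ^ (e / (A + 1)) / (e / (A + 1)) := Real.log_le_rpow_div hx0 h0
  have h2 : 0 ≤ Real.log x := Real.log_nonneg hx
  calc Real.log x ^ A ≤ (x ^ (e / (A + 1)) / (e / (A + 1))) ^ A := pow_le_pow_left₀ h2 h1 A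
    _ = (1 / (e / (A + 1))) ^ A * (x ^ (e / (A + 1))) ^ A := by rw [← mul_pow]; congr 1; ring
    _ ≤ (1 / (e / (A + 1))) ^ A * x ^ e := by
        refine mul_le_mul_of_nonneg_left ?_ (by positivity)
        rw [← Real.rpow_natCast, ← Real.rpow_mul hx0]
        refine Real.rpow_le_rpow_of_exponent_le hx ?_
        rw [div_mul_eq_mul_div, div_le_iff₀ (by positivity)]
        nlinarith

lemma ffc : Continuous ff := Pool.Agent.N879.PZ.M4laux.ff_cont

lemma ff_nonneg (u : ℝ) : 0 ≤ ff u := by unfold ff; positivity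

lemma ee_one (t : ℝ) : ee t (1, 1) = 1 := by
  unfold ee lam
  simp

theorem sm_of (hTW : S_TW) (hM4 : S_M4L) : Pool.Agent.Y969.GP.S_SM := by
  obtain ⟨C1, hC1, h1⟩ := hTW
  obtain ⟨C2, A, hC2, h2⟩ := hM4
  obtain ⟨K, hK, hlog⟩ := log_pow_le A (e := 1 / 8) (by norm_num)
  -- the bound for `T ≥ 4`
  have key : ∀ T : ℝ, 4 ≤ T → ∫ u in (0:ℝ)..T, ff u ≤ (2 + C2 * K + 3 * C1) * T * Real.log T := by
    intro T hT
    have hT0 : 0 < T := by linarith
    have hT1 : 1 ≤ T := by linarith
    set a : ℝ := T ^ (7 / 8 : ℝ) with ha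
    have ha3 : 3 ≤ a := by
      have h4 : (3:ℝ) ≤ 4 ^ (7 / 8 : ℝ) := by
        have e1 : (3:ℝ) = (3 ^ (8:ℝ)) ^ (1 / 8 : ℝ) := by
          rw [← Real.rpow_mul (by norm_num)]; norm_num
        have e2 : (4:ℝ) ^ (7 / 8 : ℝ) = (4 ^ (7:ℝ)) ^ (1 / 8 : ℝ) := by
          rw [← Real.rpow_mul (by norm_num)]; norm_num
        rw [e1, e2]
        refine Real.rpow_le_rpow (by positivity) ?_ (by norm_num)
        norm_num
      exact h4.trans (Real.rpow_le_rpow (by norm_num) hT (by norm_num))
    have haT : a ≤ T := by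
      calc a ≤ T ^ (1:ℝ) := Real.rpow_le_rpow_of_exponent_le hT1 (by norm_num)
        _ = T := Real.rpow_one T
    have ha0 : 0 ≤ a := by linarith
    have hL : 1 ≤ Real.log T := by
      have : Real.exp 1 ≤ T := by
        have := Real.exp_one_lt_d9
        linarith
      rw [← Real.log_exp 1]
      exact Real.log_le_log (Real.exp_pos 1) this
    -- small heights
    have s1 : ∫ u in (0:ℝ)..a, ff u ≤ (1 + C2 * K) * T := by
      have hi : ∫ u in (0:ℝ)..a, ff u ≤ ∫ u in (0:ℝ)..a, (1 + ff u ^ 2) := by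
        refine intervalIntegral.integral_mono_on ha0 (ffc.intervalIntegrable _ _)
          ((continuous_const.add (ffc.pow 2)).intervalIntegrable _ _) fun u _ => ?_
        nlinarith [sq_nonneg (ff u - 1), ff_nonneg u]
      have hj : ∫ u in (0:ℝ)..a, (1 + ff u ^ 2) = a + ∫ u in (0:ℝ)..a, ff u ^ 2 := by
        have hc1 : IntervalIntegrable (fun _ : ℝ => (1:ℝ)) volume 0 a :=
          continuous_const.intervalIntegrable _ _
        have hc2 : IntervalIntegrable (fun u : ℝ => ff u ^ 2) volume 0 a :=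
          (ffc.pow 2).intervalIntegrable _ _
        rw [intervalIntegral.integral_add hc1 hc2, intervalIntegral.integral_const]
        simp only [sub_zero, smul_eq_mul, mul_one]
      have hk := h2 a ha3
      have hl : C2 * a * Real.log a ^ A ≤ C2 * K * T := by
        have e1 : Real.log a ^ A ≤ Real.log T ^ A :=
          pow_le_pow_left₀ (Real.log_nonneg (by linarith)) (Real.log_le_log (by linarith) haT) A
        have e2 := hlog T hT1
        have e3 : a * T ^ (1 / 8 : ℝ) = T := by
          rw [ha, ← Real.rpow_add hT0]; norm_num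
        calc C2 * a * Real.log a ^ A ≤ C2 * a * (K * T ^ (1 / 8 : ℝ)) := by
              gcongr
              exact e1.trans e2
          _ = C2 * K * (a * T ^ (1 / 8 : ℝ)) := by ring
          _ = C2 * K * T := by rw [e3]
      linarith
    -- the main part
    have s2 : ∫ u in a..T, ff u ≤ T * Real.log T + (C1 * T * (1 + Real.log T) + C1 * T) := by
      have hq := h1 T a (1, 1) (by linarith) le_rfl haT le_rfl le_rfl (by decide)
        (by
          have : ht (1, 1) = 1 := by simp [ht]
          rw [this]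
          exact Real.one_le_rpow hT1 (by norm_num))
      have hht : ht (1, 1) = 1 := by simp [ht]
      rw [hht] at hq
      simp only [ee_one, mul_one, Real.sqrt_one, inv_one, Real.log_one, add_zero] at hq
      have e1 : (∫ t in a..T, (ff t : ℂ)) = ((∫ t in a..T, ff t : ℝ) : ℂ) := by
        rw [intervalIntegral.integral_ofReal]
      rw [e1, ← ofReal_sub, Complex.norm_real, Real.norm_eq_abs] at hq
      have e2 := (abs_le.mp hq).2
      have e3 : a / T * Real.log T ≤ Real.log T := by
        have : a / T ≤ 1 := by rw [div_le_one hT0]; exact haT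
        nlinarith
      have e4 : T ^ (15 / 16 : ℝ) ≤ T := by
        calc T ^ (15 / 16 : ℝ) ≤ T ^ (1:ℝ) := Real.rpow_le_rpow_of_exponent_le hT1 (by norm_num)
          _ = T := Real.rpow_one T
      have e5 : C1 * T * (1 + a / T * Real.log T) ≤ C1 * T * (1 + Real.log T) := by gcongr
      have e6 : C1 * T ^ (15 / 16 : ℝ) ≤ C1 * T := by gcongr
      linarith
    rw [← intervalIntegral.integral_add_adjacent_intervals (ffc.intervalIntegrable 0 a)
      (ffc.intervalIntegrable a T)]
    have hCK : 0 < C2 * K := by positivity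
    have h5 : T ≤ T * Real.log T := by nlinarith
    have h6 : (1 + C2 * K) * T ≤ (1 + C2 * K) * (T * Real.log T) := by gcongr
    have h7 : C1 * T ≤ C1 * (T * Real.log T) := by gcongr
    nlinarith
  refine ⟨4 * (2 + C2 * K + 3 * C1), by positivity, fun T hT => ?_⟩
  have h3 := key (2 * T) (by linarith)
  have hT0 : 0 < T := by linarith
  have hl2 : Real.log (2 * T) ≤ 2 * Real.log T := by
    rw [Real.log_mul (by norm_num) (by linarith)]
    have := Real.log_le_log (by norm_num : (0:ℝ) < 2) hT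
    linarith
  have h8 : 0 < 2 + C2 * K + 3 * C1 := by positivity
  calc ∫ u in (0:ℝ)..(2 * T), ff u ≤ (2 + C2 * K + 3 * C1) * (2 * T) * Real.log (2 * T) := h3
    _ ≤ (2 + C2 * K + 3 * C1) * (2 * T) * (2 * Real.log T) := by gcongr
    _ = 4 * (2 + C2 * K + 3 * C1) * T * Real.log T := by ring

theorem t_TW' : S_TW := Pool.Agent.N879.PZ.t_TW Pool.Agent.N879.PZ.t_AFX Pool.Agent.N879.PZ.t_CRD

theorem t_M4L' : S_M4L :=
  Pool.Agent.N879.PZ.t_M4L Pool.Agent.N879.PZ.t_AFX Pool.Agent.N879.PZ.t_CRD Pool.Agent.N879.PZ.t_LT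

/-- second moment of zeta -/
theorem sm : Pool.Agent.Y969.GP.S_SM := sm_of t_TW' t_M4L'

end Pool.Agent.Helper83x.ZM
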