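import Pool.Agent.Helper83x.ZM.SM
import Pool.Agent.Y587.GP.V
import Pool.Agent.Y587.GP.Chi
import Pool.Agent.Y379.GP.Sp
import Pool.Agent.Y125.GP.LSW
import Pool.Agent.Y545.GP.CR
import Pool.Agent.Y891.GP.AFE
import Pool.Agent.Y246.SX.W1
import Pool.Agent.Y293.SX.TL2
import Pool.Agent.Y360.SX.F8
import Pool.Agent.Y369.SX.Ars
import Pool.Agent.Y4.SX.UB
import Pool.Agent.Y429.SX.FB
import Pool.Agent.Y448.SX.W2
import Pool.Agent.Y475.SX.SHP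
import Pool.Agent.Y514.SX.ZE
import Pool.Agent.Y54.SX.A2
import Pool.Agent.Y547.SX.Min
import Pool.Agent.Y604.SX.AS
import Pool.Agent.Y620.SX.CRA
import Pool.Agent.Y670.SX.TAY
import Pool.Agent.Y686.SX.Lsm
import Pool.Agent.Y726.SX.TWC
import Pool.Agent.Y76.SX.ARI
import Pool.Agent.Y77.SX.CTW
import Pool.Agent.Y780.SX.Blk
import Pool.Agent.Y781.SX.LB
import Pool.Agent.Y809.SX.UB0
import Pool.Agent.Y81.SX.AAP
import Pool.Agent.Y81.SX.T0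
import Pool.Agent.Y812.SX.OMX
import Pool.Agent.Y852.SX.Loc
import Pool.Agent.Y901.SX.A1
import Pool.Agent.Y953.SX.Ort
import Pool.Agent.Y96.SX.ZM
import Pool.Agent.Y969.SM.Fin
import Pool.Agent.Y969.SM.Rel
import Pool.Agent.Y969.SM.Win
import Pool.Agent.Y969.SM.Res
import Pool.Agent.Y978.SX.EUL
import Pool.Agent.Y983.SX.EUT
import Pool.Agent.Y739.SX.FA
import Pool.Agent.TH806.N4.Abs

set_option autoImplicit false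

/-! Project SX of helper969: the moments `∫ |ζ(1/2+it)|⁴ ∏ |ζ(1/2+i(t+c_j))|² dt`, with the second moment supplied by
`SM.lean`. -/

namespace Pool.Agent.Helper83x.ZM

open Pool.Agent MeasureTheory Filter

theorem sx_fa : ∃ k : ℕ, 2 ≤ k ∧ Y969.SM.S_FA k := by
  obtain ⟨k0, h⟩ := Y739.SX.t_FA
  exact ⟨max k0 2, le_max_right _ _, h _ (le_max_left _ _)⟩

open Y969.SM in
open Pool.Agent.H306R2.SM (om) in
open Pool.Agent.H262R4.TM (Rng) in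
theorem fa_log5 {k : ℕ} (h : S_FA k) : ∀ᶠ T : ℝ in atTop, ∀ κ : ℕ, Rng T κ →
      ∫ t in Set.Ioi (0:ℝ), om κ (κ / T) t * |F0 k T t| ≤ Real.log T ^ 5 ∧
      IntegrableOn (fun t => om κ (κ / T) t * |F0 k T t|) (Set.Ioi 0) := by
  obtain ⟨C, hC, h⟩ := h
  filter_upwards [h, Real.tendsto_log_atTop.eventually_ge_atTop C,
    Real.tendsto_log_atTop.eventually_ge_atTop 0] with T hT hL hL0 κ hκ
  obtain ⟨-, q2, -, -, q5, -⟩ := hT κ hκ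
  refine ⟨q5.trans ?_, q2⟩
  calc C * Real.log T ^ 4 ≤ Real.log T * Real.log T ^ 4 := by gcongr
    _ = Real.log T ^ 5 := by ring

open Y969.SM in
open Pool.Agent.H306R2.SM (om) in
open Pool.Agent.H262R4.TM (Rng) in
theorem fa_x4 {k : ℕ} (h : S_FA k) : ∃ C : ℝ, 0 < C ∧ ∀ᶠ T : ℝ in atTop, ∀ κ : ℕ, Rng T κ →
      ∫ t in Set.Ioi (0:ℝ), om κ (κ / T) t * Xz t ^ 4 ≤ C * Real.log T ^ 4 := by
  obtain ⟨C, hC, h⟩ := h
  refine ⟨C, hC, h.mono fun T hT κ hκ => ?_⟩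
  obtain ⟨-, -, -, -, -, q6⟩ := hT κ hκ
  exact q6

theorem sx_WIN : Y969.SM.S_WIN := by
  obtain ⟨k, hk, hFA⟩ := sx_fa
  have hV := Y587.GP.t_V
  have hSP := Y379.GP.t_SP
  have hCR := Y545.GP.t_CR hV
  have hLSW := Y125.GP.t_LSW hSP
  have hAFE := Y891.GP.t_AFE hV Y587.GP.Chi.t_CHI
  have hFB := Y429.SX.t_FB Y360.SX.t_F8 k hk
  have hORT := Y953.SX.t_ORT hSP
  have hUB := Y4.SX.t_UB k (Y809.SX.t_UB0 Y726.SX.t_TWC TH384.N4_FM.t_FM Y369.SX.t_ARS k hk) hFB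
  have hAS := Y604.SX.t_AS Y726.SX.t_TWC TH384.N4_FM.t_FM TH806.N4.a_ING Y901.SX.t_A1 Y54.SX.t_A2
    ⟨k, hk, hFA⟩
  exact Y969.SM.t_WIN k hFB (Y246.SX.t_W1 k hFA hFB sm)
    (Y448.SX.t_W2 k hFB (fa_log5 hFA) hAFE sm)
    (Y547.SX.t_MIN k Y780.SX.t_BLK hFB (fa_log5 hFA) hLSW hCR)
    (Y670.SX.t_TAY k (Y620.SX.t_CRA hV) Y812.SX.t_OMX hORT hFA hFB)
    (Y293.SX.t_TL2 k hUB hORT Y76.SX.t_ARI hFB)
    (Y81.SX.T0.t_T0 k hUB hAS hFA hORT Y76.SX.t_ARI Y76.SX.t_W2B hFB) Y77.SX.t_CTW hV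

theorem sx_LOC : Y969.SM.S_LOC := Y852.SX.t_LOC

theorem sx_MAIN : Y969.SM.S_MAIN := by
  obtain ⟨k, -, hFA⟩ := sx_fa
  have hORT := Y953.SX.t_ORT Y379.GP.t_SP
  exact Y969.SM.t_MAIN sx_WIN (Y475.SX.t_SHP sm Y77.SX.t_CTW (fa_x4 hFA))
    (Y978.SX.t_EUL sx_LOC (Y983.SX.EUT.t_EUT Y686.SX.t_LSM) hORT Y76.SX.t_ARI Y76.SX.t_W2B) Y77.SX.t_CTW

theorem sx_AA : Y969.SM.S_AA := Y81.SX.AAP.t_AA sx_LOC

theorem sx_REL : Y969.SM.S_REL :=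
  Y969.SM.t_REL sx_MAIN (Y781.SX.t_LB sx_LOC) (Y514.SX.t_ZE sx_AA Y96.SX.t_ZM)

end Pool.Agent.Helper83x.ZM
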